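import Mathlib

namespace Pool.Agent.Results.MP_59f064_al.HigherPowerRegular

/-- A von Neumann regular element. -/
def IsRegularElt {R : Type} [Ring R] (a : R) : Prop := ∃ x : R, a = a * x * a

/-- A `π`-regular ring: every element has a regular positive power. -/
def IsPiRegular (R : Type) [Ring R] : Prop := ∀ a : R, ∃ n : ℕ, 1 ≤ n ∧ IsRegularElt (a ^ n)

theorem result (R : Type) [Ring R] (h : IsPiRegular R) (a : R) (m : ℕ) :
    ∃ k : ℕ, m ≤ k ∧ IsRegularElt (a ^ k) := by
  obtain ⟨n, hn, h1⟩ := h (a ^ m)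
  exact ⟨m * n, Nat.le_mul_of_pos_right m hn, by rwa [pow_mul]⟩

end Pool.Agent.Results.MP_59f064_al.HigherPowerRegular
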